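import Mathlib

/-!
# Essential right ideals of centrally essential torsion-free rings of finite rank
-/

open scoped TensorProduct

namespace Pool.Agent.Results.MP_4595ea_al.EssentialNotIdeal

/-- `R` is a torsion-free ring of finite rank: its additive group is torsion-free and
`ℚ ⊗ R` is finite-dimensional over `ℚ`. -/
def TorsionFreeFiniteRank (R : Type*) [Ring R] : Prop :=
  IsAddTorsionFree R ∧ Module.Finite ℚ (ℚ ⊗[ℤ] R)

/-- `R` is centrally essential: for every nonzero `a` there are nonzero central `x`, `y` with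
`a * x = y`. -/
def CentrallyEssential (R : Type*) [Ring R] : Prop :=
  ∀ a : R, a ≠ 0 → ∃ x ∈ Subring.center R, ∃ y ∈ Subring.center R, x ≠ 0 ∧ y ≠ 0 ∧ a * x = y

/-- A right ideal `I` (a submodule of the right module `R`) is essential: it meets every nonzero
right ideal nontrivially. -/
def IsEssentialRight {R : Type*} [Ring R] (I : Submodule Rᵐᵒᵖ R) : Prop :=
  ∀ J : Submodule Rᵐᵒᵖ R, J ≠ ⊥ → I ⊓ J ≠ ⊥

/-! ### The example -/

/-- The example: the free abelian group on `1, x, y, u, v, c` with
`x x = u`, `y y = v`, `x y = c`, `x u = u x = y v = v y = 2 c` and all other products of two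
elements of `x, y, u, v, c` equal to zero. -/
@[ext] structure E where
  n : ℤ
  x : ℤ
  y : ℤ
  u : ℤ
  v : ℤ
  c : ℤ

namespace E

instance : Add E := ⟨fun a b => ⟨a.n + b.n, a.x + b.x, a.y + b.y, a.u + b.u, a.v + b.v, a.c + b.c⟩⟩
instance : Neg E := ⟨fun a => ⟨-a.n, -a.x, -a.y, -a.u, -a.v, -a.c⟩⟩
instance : Zero E := ⟨⟨0, 0, 0, 0, 0, 0⟩⟩
instance : One E := ⟨⟨1, 0, 0, 0, 0, 0⟩⟩
instance : Mul E := ⟨fun a b => ⟨a.n * b.n, a.n * b.x + a.x * b.n, a.n * b.y + a.y * b.n,
  a.n * b.u + a.u * b.n + a.x * b.x, a.n * b.v + a.v * b.n + a.y * b.y,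
  a.n * b.c + a.c * b.n + a.x * b.y + 2 * (a.x * b.u + a.u * b.x + a.y * b.v + a.v * b.y)⟩⟩

@[simp] theorem mul_n (a b : E) : (a * b).n = a.n * b.n := rfl
@[simp] theorem mul_x (a b : E) : (a * b).x = a.n * b.x + a.x * b.n := rfl
@[simp] theorem mul_y (a b : E) : (a * b).y = a.n * b.y + a.y * b.n := rfl
@[simp] theorem mul_u (a b : E) : (a * b).u = a.n * b.u + a.u * b.n + a.x * b.x := rfl
@[simp] theorem mul_v (a b : E) : (a * b).v = a.n * b.v + a.v * b.n + a.y * b.y := rfl
@[simp] theorem mul_c (a b : E) : (a * b).c = a.n * b.c + a.c * b.n + a.x * b.y +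
    2 * (a.x * b.u + a.u * b.x + a.y * b.v + a.v * b.y) := rfl
@[simp] theorem add_n (a b : E) : (a + b).n = a.n + b.n := rfl
@[simp] theorem add_x (a b : E) : (a + b).x = a.x + b.x := rfl
@[simp] theorem add_y (a b : E) : (a + b).y = a.y + b.y := rfl
@[simp] theorem add_u (a b : E) : (a + b).u = a.u + b.u := rfl
@[simp] theorem add_v (a b : E) : (a + b).v = a.v + b.v := rfl
@[simp] theorem add_c (a b : E) : (a + b).c = a.c + b.c := rfl
@[simp] theorem neg_n (a : E) : (-a).n = -a.n := rfl
@[simp] theorem neg_x (a : E) : (-a).x = -a.x := rfl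
@[simp] theorem neg_y (a : E) : (-a).y = -a.y := rfl
@[simp] theorem neg_u (a : E) : (-a).u = -a.u := rfl
@[simp] theorem neg_v (a : E) : (-a).v = -a.v := rfl
@[simp] theorem neg_c (a : E) : (-a).c = -a.c := rfl
@[simp] theorem zero_n : (0 : E).n = 0 := rfl
@[simp] theorem zero_x : (0 : E).x = 0 := rfl
@[simp] theorem zero_y : (0 : E).y = 0 := rfl
@[simp] theorem zero_u : (0 : E).u = 0 := rfl
@[simp] theorem zero_v : (0 : E).v = 0 := rfl
@[simp] theorem zero_c : (0 : E).c = 0 := rfl
@[simp] theorem one_n : (1 : E).n = 1 := rfl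
@[simp] theorem one_x : (1 : E).x = 0 := rfl
@[simp] theorem one_y : (1 : E).y = 0 := rfl
@[simp] theorem one_u : (1 : E).u = 0 := rfl
@[simp] theorem one_v : (1 : E).v = 0 := rfl
@[simp] theorem one_c : (1 : E).c = 0 := rfl

instance : Ring E where
  add_assoc a b d := by ext <;> simp <;> ring
  zero_add a := by ext <;> simp
  add_zero a := by ext <;> simp
  add_comm a b := by ext <;> simp <;> ring
  neg_add_cancel a := by ext <;> simp
  mul_assoc a b d := by ext <;> simp <;> ring
  one_mul a := by ext <;> simp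
  mul_one a := by ext <;> simp
  left_distrib a b d := by ext <;> simp <;> ring
  right_distrib a b d := by ext <;> simp <;> ring
  zero_mul a := by ext <;> simp
  mul_zero a := by ext <;> simp
  nsmul := nsmulRec
  zsmul := zsmulRec

theorem mem_center_of {a : E} (h2 : a.x = 0) (h3 : a.y = 0) : a ∈ Subring.center E := by
  rw [Subring.mem_center_iff]
  intro g
  ext <;> simp [h2, h3] <;> ring

theorem ce : CentrallyEssential E := by
  intro a ha
  by_cases hx : a.x = 0
  · by_cases hy : a.y = 0
    · exact ⟨1, Subring.one_mem _, a, mem_center_of hx hy, by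
        intro h; simpa using congrArg E.n h, ha, mul_one a⟩
    · refine ⟨⟨0, 0, 0, 0, 1, 0⟩, mem_center_of rfl rfl, _, mem_center_of ?_ ?_, ?_, ?_, rfl⟩
      · simp
      · simp
      · intro h; simpa using congrArg E.v h
      · intro h
        apply hy
        have := congrArg E.c h
        simpa using this
  · refine ⟨⟨0, 0, 0, 1, 0, 0⟩, mem_center_of rfl rfl, _, mem_center_of ?_ ?_, ?_, ?_, rfl⟩
    · simp
    · simp
    · intro h; simpa using congrArg E.u h
    · intro h
      apply hx
      have := congrArg E.c h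
      simpa using this

/-- The additive group of the example is `ℤ ^ 6`. -/
def toPi : E ≃+ (Fin 6 → ℤ) where
  toFun a := ![a.n, a.x, a.y, a.u, a.v, a.c]
  invFun f := ⟨f 0, f 1, f 2, f 3, f 4, f 5⟩
  left_inv a := by ext <;> simp
  right_inv f := by
    funext i
    fin_cases i <;> simp
  map_add' a b := by
    funext i
    fin_cases i <;> simp

theorem tffr : TorsionFreeFiniteRank E := by
  constructor
  · exact Function.Injective.isAddTorsionFree toPi.toAddMonoidHom toPi.injective
  · have : Module.Finite ℤ E := Module.Finite.equiv toPi.toIntLinearEquiv.symm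
    infer_instance

/-- The right ideal `y R + 2 R`. -/
def I : Submodule Eᵐᵒᵖ E where
  carrier := {a | Even a.n ∧ Even a.x ∧ Even a.u ∧ Even a.c}
  add_mem' := by
    rintro a b ⟨h1, h2, h3, h4⟩ ⟨k1, k2, k3, k4⟩
    exact ⟨h1.add k1, h2.add k2, h3.add k3, h4.add k4⟩
  zero_mem' := by simp
  smul_mem' := by
    rintro r a ⟨h1, h2, h3, h4⟩
    change Even (a * r.unop).n ∧ Even (a * r.unop).x ∧ Even (a * r.unop).u ∧ Even (a * r.unop).c
    refine ⟨?_, ?_, ?_, ?_⟩
    · exact h1.mul_right _
    · exact (h1.mul_right _).add (h2.mul_right _)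
    · exact ((h1.mul_right _).add (h3.mul_right _)).add (h2.mul_right _)
    · exact (((h1.mul_right _).add (h4.mul_right _)).add (h2.mul_right _)).add
        (even_two.mul_right _)

theorem essential_I : IsEssentialRight I := by
  intro J hJ hIJ
  obtain ⟨a, haJ, ha0⟩ := (Submodule.ne_bot_iff J).mp hJ
  apply ha0
  have h2a : a * 2 ∈ I ⊓ J := by
    refine ⟨?_, J.smul_mem (MulOpposite.op 2) haJ⟩
    have h2 : a * 2 = a + a := mul_two a
    rw [h2]
    exact ⟨Even.add_self _, Even.add_self _, Even.add_self _, Even.add_self _⟩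
  rw [hIJ, Submodule.mem_bot, mul_two] at h2a
  ext
  · have := congrArg E.n h2a; simp at this ⊢; omega
  · have := congrArg E.x h2a; simp at this ⊢; omega
  · have := congrArg E.y h2a; simp at this ⊢; omega
  · have := congrArg E.u h2a; simp at this ⊢; omega
  · have := congrArg E.v h2a; simp at this ⊢; omega
  · have := congrArg E.c h2a; simp at this ⊢; omega

end E

/-- There are a centrally essential torsion-free ring `R` of finite rank, an essential right ideal
`I` of `R` and elements `r ∈ R`, `a ∈ I` with `r a ∉ I`. -/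
theorem result : ∃ (R : Type) (_ : Ring R), TorsionFreeFiniteRank R ∧ CentrallyEssential R ∧
    ∃ I : Submodule Rᵐᵒᵖ R, IsEssentialRight I ∧ ∃ r : R, ∃ a ∈ I, r * a ∉ I := by
  refine ⟨E, inferInstance, E.tffr, E.ce, E.I, E.essential_I, ⟨0, 1, 0, 0, 0, 0⟩,
    ⟨0, 0, 1, 0, 0, 0⟩, ?_, ?_⟩
  · exact ⟨Even.zero, Even.zero, Even.zero, Even.zero⟩
  · rintro ⟨-, -, -, h⟩
    simp at h

end Pool.Agent.Results.MP_4595ea_al.EssentialNotIdeal
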